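import Pool.Agent.ACK.StmtsF

set_option autoImplicit false

namespace Pool.Agent.ACK.H15

open Pool.Agent.ACK

/-- arithmetic of the final comparison -/
theorem fin_lt (E E' : ℕ∞) (K m : ℕ) (h : 2 * E ≤ (((m + 9).choose 5 + K * (2 * m + 17) ^ 4 : ℕ) : ℕ∞))
    (h' : ((361 * (m + 5).choose 5 : ℕ) : ℕ∞) ≤ 720 * E')
    (ha : 360 * (m + 9).choose 5 + 720 * K * (2 * m + 17) ^ 4 < 361 * (m + 5).choose 5) : E < E' := by
  have hE : E ≠ ⊤ := by
    rintro rfl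
    rw [ENat.mul_top (by norm_num)] at h
    exact absurd h (not_le.2 (ENat.coe_lt_top _))
  obtain ⟨e, rfl⟩ := ENat.ne_top_iff_exists.1 hE
  by_cases hE' : E' = ⊤
  · subst hE'
    exact ENat.coe_lt_top e
  · obtain ⟨e', rfl⟩ := ENat.ne_top_iff_exists.1 hE'
    have h1 : 2 * e ≤ (m + 9).choose 5 + K * (2 * m + 17) ^ 4 := by exact_mod_cast h
    have h2 : 361 * (m + 5).choose 5 ≤ 720 * e' := by exact_mod_cast h'
    have h4 : 720 * K * (2 * m + 17) ^ 4 = 720 * (K * (2 * m + 17) ^ 4) := by ring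
    rw [h4] at ha
    have h3 : e < e' := by
      generalize K * (2 * m + 17) ^ 4 = X at h1 ha
      omega
    exact_mod_cast h3

/-- **RSS** -/
theorem rss (hupr : UprStmt) (hlow : D.LowStmt) (hari : AriStmt) : RssStmt := by
  obtain ⟨K, hK⟩ := hupr
  obtain ⟨m0, hm0⟩ := hari K
  refine ⟨2 * m0 + 16, fun c hc he => ?_⟩
  obtain ⟨r, hr⟩ := he
  obtain ⟨m, rfl⟩ : ∃ m, r = m + 8 := ⟨r - 8, by omega⟩
  have hc' : c = 2 * m + 16 := by omega
  have hc1 : c - 1 = 2 * m + 15 := by omega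
  have hU := hK m c hc'
  have hA := hm0 m (by omega)
  have hL := hlow m
  have hcc : c + 1 = 2 * m + 17 := by omega
  rw [hcc] at hU
  have key : ∀ E : ℕ∞, E ≤ Set.encard {q : Quot Mv | ∃ (l : List ℕ) (s : ℕ → Bool), Kn c l ∧
      nc (wd c l) s + 2 = c ∧ Quot.mk Mv l = q} → ∀ E' : ℕ∞,
      ((361 * (m + 5).choose 5 : ℕ) : ℕ∞) ≤ 720 * E' → E < E' := by
    intro E hE E' hE'
    exact fin_lt E E' K m ((mul_le_mul_right hE 2).trans hU) hE' hA
  constructor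
  · rw [hc1]
    refine key _ (Set.encard_le_encard ?_) _ hL.1
    rintro q ⟨l, hk, hg, rfl⟩
    obtain ⟨s, hs⟩ := hg.1
    exact ⟨l, s, hk, by omega, rfl⟩
  · rw [hc1]
    refine key _ (Set.encard_le_encard ?_) _ hL.2
    rintro q ⟨l, hk, hg, rfl⟩
    obtain ⟨s, -, hs⟩ := hg.1
    exact ⟨l, s, hk, by omega, rfl⟩

end Pool.Agent.ACK.H15
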