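import Pool.Agent.ACK.StmtsC

set_option autoImplicit false

namespace Pool.Agent.ACK.H15

open Pool.Agent.ACK

theorem cnt_map (g : ℕ → ℕ) (l : List ℕ) (a : ℕ) (ha : ∀ b ∈ l, g b = g a → b = a) :
    (l.map g).count (g a) = l.count a := by
  induction l with
  | nil => simp
  | cons x l ih =>
    have h1 := ih (fun b hb => ha b (List.mem_cons_of_mem _ hb))
    have h2 := ha x List.mem_cons_self
    rw [List.map_cons, List.count_cons, List.count_cons, h1]
    by_cases hx : x = a
    · subst hx
      simp
    · have h3 : g x ≠ g a := fun h => hx (h2 h)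
      simp [hx, h3]

theorem trn : C.TrnStmt := by
  intro C b g φ hcw hg
  classical
  let C' : ℕ → List ℕ := fun n => if h : ∃ t ∈ b, g t.1 = n then
    (if φ h.choose.1 then (C h.choose.1).reverse else C h.choose.1) else []
  have hC' : ∀ t ∈ b, C' (g t.1) = if φ t.1 then (C t.1).reverse else C t.1 := by
    intro t ht
    have h : ∃ u ∈ b, g u.1 = g t.1 := ⟨t, ht, rfl⟩
    have h1 : h.choose.1 = t.1 := hg _ h.choose_spec.1 t ht h.choose_spec.2
    have h2 : C' (g t.1) = if φ h.choose.1 then (C h.choose.1).reverse else C h.choose.1 :=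
      dif_pos h
    rw [h2, h1]
  refine ⟨C', ?_, ?_, ?_⟩
  · constructor
    · intro x hx
      rw [List.map_map] at hx ⊢
      rw [List.mem_map] at hx
      obtain ⟨t, ht, rfl⟩ := hx
      have h1 : b.map (Prod.fst ∘ fun t : Tk => (g t.1, xor (φ t.1) t.2)) = (b.map Prod.fst).map g := by
        rw [List.map_map]
        rfl
      rw [h1]
      have h2 := cnt_map g (b.map Prod.fst) t.1 (by
        intro e he hge
        rw [List.mem_map] at he
        obtain ⟨u, hu, rfl⟩ := he
        exact hg u hu t ht hge)
      show ((b.map Prod.fst).map g).count (g t.1) = 2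
      rw [h2]
      exact hcw.tw t.1 (List.mem_map.2 ⟨t, ht, rfl⟩)
    · intro x hx
      rw [List.mem_map] at hx
      obtain ⟨t, ht, rfl⟩ := hx
      show C' (g t.1) ≠ []
      rw [hC' t ht]
      have := hcw.ne t ht
      split
      · simpa using this
      · exact this
    · intro x hx
      rw [List.mem_map] at hx
      obtain ⟨t, ht, rfl⟩ := hx
      show (C' (g t.1)).Nodup
      rw [hC' t ht]
      have := hcw.nd t ht
      split
      · exact List.nodup_reverse.2 this
      · exact this
    · intro x hx y hy hne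
      rw [List.mem_map] at hx hy
      obtain ⟨t, ht, rfl⟩ := hx
      obtain ⟨u, hu, rfl⟩ := hy
      show List.Disjoint (C' (g t.1)) (C' (g u.1))
      rw [hC' t ht, hC' u hu]
      have h1 : t.1 ≠ u.1 := fun h => hne (congrArg g h)
      have h2 := hcw.dj t ht u hu h1
      intro z hz hz'
      have hz1 : z ∈ C t.1 := by
        split at hz
        · exact List.mem_reverse.1 hz
        · exact hz
      have hz2 : z ∈ C u.1 := by
        split at hz'
        · exact List.mem_reverse.1 hz'
        · exact hz'
      exact h2 hz1 hz2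
  · intro t ht
    have h := hC' t ht
    refine ⟨?_, ?_⟩
    · unfold bk
      simp only []
      rw [h]
      cases h1 : φ t.1 <;> cases h2 : t.2 <;> simp
    · rw [h]
      split <;> simp
  · intro s hs P Q R t t' hb hne x hx
    rw [List.map_eq_append_iff] at hb
    obtain ⟨P0, b1, rfl, rfl, hb1⟩ := hb
    rw [List.map_eq_cons_iff] at hb1
    obtain ⟨u, b2, rfl, rfl, hb2⟩ := hb1
    rw [List.map_eq_append_iff] at hb2
    obtain ⟨Q0, b3, rfl, rfl, hb3⟩ := hb2
    rw [List.map_eq_cons_iff] at hb3
    obtain ⟨u', R0, rfl, rfl, rfl⟩ := hb3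
    have hu : u ∈ P0 ++ u :: (Q0 ++ u' :: R0) := by simp
    have hu' : u' ∈ P0 ++ u :: (Q0 ++ u' :: R0) := by simp
    have he : u.1 = u'.1 := hg u hu u' hu' hne
    have hx' : x ∈ C u.1 := by
      have h3 : x ∈ C' (g u.1) := hx
      rw [hC' u hu] at h3
      split at h3
      · exact List.mem_reverse.1 h3
      · exact h3
    have h4 := hs P0 Q0 R0 u u' rfl he x hx'
    rw [h4]
    show u.2 = u'.2 ↔ xor (φ u.1) u.2 = xor (φ u'.1) u'.2
    rw [he]
    cases φ u'.1 <;> cases u.2 <;> cases u'.2 <;> simp

end Pool.Agent.ACK.H15
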