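import Pool.Agent.ACK.StmtsF

set_option autoImplicit false

namespace Pool.Agent.ACK.H15

open Pool.Agent.ACK

theorem mk_of_rot {l l' : List ℕ} (h : l ~r l') : Quot.mk Mv l = Quot.mk Mv l' := by
  obtain ⟨n, rfl⟩ := h
  by_cases hl : l = []
  · subst hl
    simp
  · have hpos : 0 < l.length := List.length_pos_iff.2 hl
    have hlt : n % l.length < l.length := Nat.mod_lt _ hpos
    rw [← List.rotate_mod, List.rotate_eq_drop_append_take hlt.le]
    conv_lhs => rw [← List.take_append_drop (n % l.length) l]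
    exact Quot.sound (Mv.rot _ _)

theorem upg (hdic : DicStmt) (hcou : CouStmt) (hqec : QecStmt)
    (g : ℕ → (Fin 6 → ℕ) → Quot Mv)
    (hf : ∀ (c : ℕ) (C : ℕ → List ℕ) (b : List Tk) (s : ℕ → Bool), 16 ≤ c → Even c → Sx c C b s →
      (∃ l', Quot.mk Mv (BL C b) = Quot.mk Mv l' ∧ Fw c l') ∨
        ∃ a, Qe c a ∧ Quot.mk Mv (BL C b) = g c a) : UprStmt := by
  obtain ⟨K, hK⟩ := hcou
  refine ⟨2 * K + 1, fun m c hc => ?_⟩
  have hsub : {q : Quot Mv | ∃ (l : List ℕ) (s : ℕ → Bool), Kn c l ∧ nc (wd c l) s + 2 = c ∧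
      Quot.mk Mv l = q} ⊆ {q : Quot Mv | ∃ l, Fw c l ∧ Quot.mk Mv l = q} ∪
        (g c '' {a : Fin 6 → ℕ | Qe c a}) := by
    rintro q ⟨l, s, hk, hn, rfl⟩
    have h3 : 3 ≤ c := by omega
    rcases hdic c l s h3 hk hn with ⟨l', hr, hfw⟩ | ⟨C, b, hr, hs⟩
    · left
      exact ⟨l', hfw, (mk_of_rot hr).symm⟩
    · have he : Even c := ⟨m + 8, by omega⟩
      rcases hf c C b s (by omega) he hs with ⟨l', h1, h2⟩ | ⟨a, ha, h1⟩
      · left
        exact ⟨l', h2, by rw [mk_of_rot hr, h1]⟩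
      · right
        exact ⟨a, ha, by rw [mk_of_rot hr, h1]⟩
  have h1 := (Set.encard_le_encard hsub).trans (Set.encard_union_le _ _)
  have h2 := Set.encard_image_le (g c) {a : Fin 6 → ℕ | Qe c a}
  have h3 := hK c
  have h4 := hqec m c hc
  calc 2 * Set.encard {q : Quot Mv | ∃ (l : List ℕ) (s : ℕ → Bool), Kn c l ∧
        nc (wd c l) s + 2 = c ∧ Quot.mk Mv l = q}
      ≤ 2 * (Set.encard {q : Quot Mv | ∃ l, Fw c l ∧ Quot.mk Mv l = q} +
        Set.encard (g c '' {a : Fin 6 → ℕ | Qe c a})) := by gcongr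
    _ = 2 * Set.encard {q : Quot Mv | ∃ l, Fw c l ∧ Quot.mk Mv l = q} +
        2 * Set.encard (g c '' {a : Fin 6 → ℕ | Qe c a}) := by rw [mul_add]
    _ ≤ 2 * ((K * (c + 1) ^ 4 : ℕ) : ℕ∞) + (((m + 9).choose 5 + (c + 1) ^ 4 : ℕ) : ℕ∞) := by
        gcongr
        exact (mul_le_mul_right h2 2).trans h4
    _ = (((m + 9).choose 5 + (2 * K + 1) * (c + 1) ^ 4 : ℕ) : ℕ∞) := by
        push_cast
        ring

/-- **UPR** -/
theorem upr (hdic : DicStmt) (hcou : CouStmt) (hupp : C.UppStmt) (hqec : QecStmt) : UprStmt := by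
  refine upg hdic hcou hqec (fun _ a => Quot.mk Mv (BL (sc 6 (fun e => if h : e < 6 then a ⟨e, h⟩ else 0)) C.bE)) ?_
  intro c C b s _ he hs
  rcases hupp c C b s he hs with ⟨l', h1, h2⟩ | h
  · exact Or.inl ⟨l', h2, h1⟩
  · exact Or.inr h

end Pool.Agent.ACK.H15
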